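import Pool.Agent.H60.Flow.Defs

/-!
# The noise operator for MP_e87df5_co
-/

set_option autoImplicit false

open Finset

namespace Pool.Agent.H39.Noise

/-- The noise operator: every element independently keeps its state with probability `3/4` and changes it with probability `1/4`
(equivalently: the state of every element is drawn afresh with probability `1/2`). -/
noncomputable def noise {n : ℕ} (g : Finset (Fin n) → ℝ) (A : Finset (Fin n)) : ℝ :=
  ∑ B, (3 / 4) ^ (n - (symmDiff A B).card) * (1 / 4) ^ (symmDiff A B).card * g B

end Pool.Agent.H39.Noise
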