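import Pool.Agent.H39.Noise.Main
import Pool.Agent.H39.Noise.Defs

/-!
# The noisy flow, and the Chvatal bound for smoothed weights
-/

set_option autoImplicit false
set_option linter.unusedSectionVars false

open Finset

namespace Pool.Agent.H39.Noise

open Pool.Agent.H60.Flow

variable {n : ℕ}

theorem kernel_eq (A B : Finset (Fin n)) :
    ∑ S : Finset (Fin n), (1 / 2 : ℝ) ^ S.card * (ch S A * ch S B) =
      2 ^ n * ((3 / 4) ^ (n - (symmDiff A B).card) * (1 / 4) ^ (symmDiff A B).card) := by
  have h1 : ∑ S : Finset (Fin n), (1 / 2 : ℝ) ^ S.card * (ch S A * ch S B) =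
      ∏ i : Fin n, (1 + (1 / 2) * (sg A i * sg B i)) := by
    rw [Finset.prod_one_add, Finset.powerset_univ]
    refine Finset.sum_congr rfl fun S _ => ?_
    unfold ch
    rw [Finset.prod_mul_distrib, Finset.prod_mul_distrib, Finset.prod_const]
  have h2 : ∀ i : Fin n, (1 + (1 / 2 : ℝ) * (sg A i * sg B i)) =
      2 * (if i ∈ symmDiff A B then 1 / 4 else 3 / 4) := by
    intro i
    unfold sg
    by_cases hA : i ∈ A <;> by_cases hB : i ∈ B <;> simp [Finset.mem_symmDiff, hA, hB] <;> norm_num
  rw [h1]
  simp only [h2]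
  rw [Finset.prod_mul_distrib, Finset.prod_const, Finset.card_univ, Fintype.card_fin, Finset.prod_ite,
    Finset.prod_const, Finset.prod_const]
  have h3 : univ.filter (fun i => i ∈ symmDiff A B) = symmDiff A B := by ext x; simp
  have h4 : (univ.filter (fun i => ¬ i ∈ symmDiff A B)).card = n - (symmDiff A B).card := by
    have h5 := Finset.card_filter_add_card_filter_not (s := (univ : Finset (Fin n))) (fun i => i ∈ symmDiff A B)
    rw [h3, Finset.card_univ, Fintype.card_fin] at h5
    omega
  rw [h3, h4]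
  ring

theorem noise_eq (g : Finset (Fin n) → ℝ) : noise g = nf g := by
  funext A
  have h1 : ∀ S : Finset (Fin n), (1 / 2 : ℝ) ^ S.card * hat g S * ch S A =
      ∑ B, ((1 / 2 : ℝ) ^ S.card * (ch S A * ch S B)) * (g B / 2 ^ n) := by
    intro S
    unfold hat av
    rw [Fintype.card_fin, ← mul_div_assoc, div_mul_eq_mul_div, Finset.mul_sum, Finset.sum_mul, Finset.sum_div]
    exact Finset.sum_congr rfl fun B _ => by ring
  unfold nf noise
  simp only [h1]
  rw [Finset.sum_comm]
  refine Finset.sum_congr rfl fun B _ => ?_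
  rw [← Finset.sum_mul, kernel_eq]
  field_simp

theorem noise_nonneg {g : Finset (Fin n) → ℝ} (hg : ∀ A, 0 ≤ g A) (A : Finset (Fin n)) : 0 ≤ noise g A := by
  unfold noise
  exact Finset.sum_nonneg fun B _ => mul_nonneg (by positivity) (hg B)

theorem av_mul_noise (K g : Finset (Fin n) → ℝ) : av (fun A => K A * noise g A) = av (fun A => noise K A * g A) := by
  rw [noise_eq, noise_eq, av_mul_nf, bf_comm, ← av_mul_nf]
  exact av_congr fun A => by ring

theorem En_nonneg {κ : Fin n → ℝ} (f : Finset (Fin n) → ℝ) : 0 ≤ En κ f :=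
  Finset.sum_nonneg fun T _ => mul_nonneg (Mx_nonneg κ T) (sq_nonneg _)

/-- **The conjectured flow after noise.** -/
theorem noisyFlow (f : Finset (Fin n) → ℝ) (hf : Monotone f) (ha : Antip f) :
    Flows (noise (til f)) (noise (sqp f)) := by
  refine flows_of_av (noise_nonneg fun A => til_nonneg f A) (noise_nonneg fun A => sq_nonneg _) fun K hK => ?_
  set u : Finset (Fin n) → ℝ := fun A => max (f A) 0 with hu
  have h1 := main_nf u K (fun A => le_max_right _ _) (fun A B hAB => max_le_max (hf hAB) le_rfl) hK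
  have h2 := sum_lam_kap_le f K
  have h3 : 0 ≤ En (kap K) (fun B => |f B|) := En_nonneg _
  have h4 : En (kap K) u = (En (kap K) f + En (kap K) (fun B => |f B|)) / 4 := by
    unfold En
    rw [← Finset.sum_add_distrib, Finset.sum_div]
    refine Finset.sum_congr rfl fun T _ => ?_
    have e1 : hat u T = (hat f T + hat (fun B => |f B|) T) / 2 := by
      rw [← hat_add, div_eq_inv_mul, ← hat_mul_left]
      congr 1
      funext A
      show max (f A) 0 = _
      rw [max_def]
      split_ifs with h
      · rw [abs_of_nonpos h]; ring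
      · rw [abs_of_pos (lt_of_not_ge h)]; ring
    by_cases hT : Even T.card
    · rw [e1, hat_odd ha hT]; ring
    · have : hat (fun B => |f B|) T = 0 := hat_even (fun A => by
        show |f Aᶜ| = |f A|
        rw [ha A, abs_neg]) hT
      rw [e1, this]; ring
  have h6 : av f = 0 := by
    have := hat_odd ha (T := ∅) (by simp)
    rwa [hat_empty] at this
  have h8 := av_sqp ha
  have h9 : av (fun A => K A * noise (sqp f) A) = bf (fun A => u A ^ 2) K := by
    rw [noise_eq, av_mul_nf, bf_comm]
    rfl
  have h10 : av (fun A => u A ^ 2) = av (sqp f) := rfl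
  have h11 : av (fun A => K A * noise (til f) A) = (av (fun A => f A ^ 2) * av K + (∑ i, lam f i * kap K i) / 2) / 2 := by
    rw [av_mul_noise, av_mul_til, noise_eq, av_nf, h6]
    simp only [kap_nf]
    have : ∑ i, lam f i * (kap K i / 2) = (∑ i, lam f i * kap K i) / 2 := by
      rw [Finset.sum_div]
      exact Finset.sum_congr rfl fun i _ => by ring
    rw [this]
    ring
  rw [h9, h11]
  rw [cov_nf, h10, h8, h4] at h1
  linarith

/-- The weight of a star. -/
theorem sum_mul_til (g f : Finset (Fin n) → ℝ) :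
    ∑ A, g A * til f A = ∑ i, lam f i * ∑ A ∈ univ.filter (fun A : Finset (Fin n) => i ∈ A), g A := by
  have h1 : ∀ A : Finset (Fin n), g A * til f A = ∑ i, (if i ∈ A then lam f i * g A else 0) := by
    intro A
    unfold til
    have : ∑ i ∈ A, lam f i = ∑ i, if i ∈ A then lam f i else 0 := by simp
    rw [this, Finset.mul_sum]
    refine Finset.sum_congr rfl fun i _ => ?_
    split_ifs <;> ring
  simp only [h1]
  rw [Finset.sum_comm]
  refine Finset.sum_congr rfl fun i _ => ?_
  rw [Finset.mul_sum, Finset.sum_filter]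

/-- Every maximal intersecting family contains exactly one of `A` and `Aᶜ`. -/
theorem compl_mem_iff {t : Finset (Finset (Fin n))} (ht : ∀ A ∈ t, ∀ B ∈ t, (A ∩ B).Nonempty)
    (hc : 2 * t.card = 2 ^ n) (A : Finset (Fin n)) : Aᶜ ∈ t ↔ A ∉ t := by
  have h0 : ∀ A, ¬ (A ∈ t ∧ Aᶜ ∈ t) := by
    rintro A ⟨h1, h2⟩
    have := ht A h1 _ h2
    simp at this
  have hle : ∀ A ∈ (univ : Finset (Finset (Fin n))),
      (if A ∈ t then 1 else 0) + (if Aᶜ ∈ t then 1 else 0) ≤ 1 := by
    intro A _
    have h := h0 A
    by_cases h1 : A ∈ t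
    · have h2 : Aᶜ ∉ t := fun h2 => h ⟨h1, h2⟩
      simp [h1, h2]
    · simp only [h1, if_false, zero_add]
      split_ifs <;> norm_num
  have hsum : ∑ A : Finset (Fin n), ((if A ∈ t then 1 else 0) + (if Aᶜ ∈ t then 1 else 0)) =
      ∑ _A : Finset (Fin n), 1 := by
    rw [Finset.sum_add_distrib]
    have e1 : ∑ A : Finset (Fin n), (if A ∈ t then 1 else 0) = t.card := by simp
    have e2 : ∑ A : Finset (Fin n), (if Aᶜ ∈ t then 1 else 0) = ∑ A : Finset (Fin n), (if A ∈ t then 1 else 0) :=
      Equiv.sum_comp (Equiv.mk (fun A : Finset (Fin n) => Aᶜ) (fun A => Aᶜ) (fun A => compl_compl A)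
        (fun A => compl_compl A)) (fun A => if A ∈ t then 1 else 0)
    rw [e2, e1]
    simp only [Finset.sum_const, Finset.card_univ, Fintype.card_finset, Fintype.card_fin, smul_eq_mul, mul_one]
    omega
  have h := (Finset.sum_eq_sum_iff_of_le hle).1 hsum A (Finset.mem_univ A)
  have h1 := h0 A
  by_cases hA : A ∈ t
  · simp only [hA, true_and] at h1
    simp [hA, h1]
  · simp only [hA, if_false, zero_add] at h
    by_cases hB : Aᶜ ∈ t
    · simp [hA, hB]
    · simp [hB] at h

/-- **The Chvatal bound for smoothed weights.** -/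
theorem noisyChvatal (hn : 0 < n) (F : Finset (Finset (Fin n))) (hF : ∀ A ∈ F, ∀ B ∈ F, (A ∩ B).Nonempty)
    (g : Finset (Fin n) → ℝ) (hg0 : ∀ A, 0 ≤ g A) (hg : Antitone g) :
    ∃ i : Fin n, ∑ A ∈ F, noise g A ≤ ∑ A ∈ univ.filter (fun A : Finset (Fin n) => i ∈ A), noise g A := by
  have hFi : (F : Set (Finset (Fin n))).Intersecting := by
    intro A hA B hB hd
    have := hF A hA B hB
    rw [Finset.disjoint_iff_inter_eq_empty.1 hd] at this
    simp at this
  have : Nonempty (Fin n) := ⟨⟨0, hn⟩⟩
  obtain ⟨t, hFt, hc, hti⟩ := hFi.exists_card_eq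
  have hc' : 2 * t.card = 2 ^ n := by
    rw [hc, Fintype.card_finset, Fintype.card_fin]
  have ht : ∀ A ∈ t, ∀ B ∈ t, (A ∩ B).Nonempty := by
    intro A hA B hB
    have := hti hA hB
    rw [Finset.disjoint_iff_inter_eq_empty] at this
    exact Finset.nonempty_iff_ne_empty.2 this
  have hup : IsUpperSet (t : Set (Finset (Fin n))) :=
    hti.isUpperSet' (hti.is_max_iff_card_eq.2 hc)
  have hcm := compl_mem_iff ht hc'
  set f : Finset (Fin n) → ℝ := fun A => if A ∈ t then 1 else -1 with hf
  have hfm : Monotone f := by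
    intro A B hAB
    simp only [hf]
    by_cases hA : A ∈ t
    · have hB : B ∈ t := hup hAB hA
      simp [hA, hB]
    · simp only [hA, if_false]
      split_ifs <;> norm_num
  have hfa : Antip f := by
    intro A
    simp only [hf]
    by_cases hA : A ∈ t
    · have : Aᶜ ∉ t := fun h => (hcm A).1 h hA
      simp [hA, this]
    · have : Aᶜ ∈ t := (hcm A).2 hA
      simp [hA, this]
  have hfl := noisyFlow f hfm hfa
  have h1 := sum_mul_le_of_flows hfl (K := fun A => - g A) (fun A B hAB => neg_le_neg (hg hAB))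
  have hsw : ∀ h : Finset (Fin n) → ℝ, ∑ A, - g A * noise h A = - ∑ A, noise g A * h A := by
    intro h
    have e1 := av_mul_noise g h
    have e2 : ∑ A, g A * noise h A = ∑ A, noise g A * h A := by
      rw [sum_eq_av, sum_eq_av, e1]
    rw [← e2, ← Finset.sum_neg_distrib]
    exact Finset.sum_congr rfl fun A _ => by ring
  rw [hsw, hsw, neg_le_neg_iff, sum_mul_til] at h1
  have h2 : ∑ A ∈ F, noise g A ≤ ∑ A, noise g A * sqp f A := by
    have e1 : ∑ A, noise g A * sqp f A = ∑ A ∈ t, noise g A := by
      have : ∀ A : Finset (Fin n), noise g A * sqp f A = if A ∈ t then noise g A else 0 := by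
        intro A
        unfold sqp
        simp only [hf]
        split_ifs <;> norm_num
      simp only [this]
      simp
    rw [e1]
    exact Finset.sum_le_sum_of_subset_of_nonneg hFt fun A _ _ => noise_nonneg hg0 A
  have hvar : ∑ i, lam f i = 1 := by
    rw [sum_lam]
    have e1 : av f = 0 := by
      have := hat_odd hfa (T := ∅) (by simp)
      rwa [hat_empty] at this
    have e2 : av (fun A => f A ^ 2) = 1 := by
      have : ∀ A, f A ^ 2 = 1 := by
        intro A
        simp only [hf]
        split_ifs <;> norm_num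
      rw [av_congr this, av_const]
    rw [e1, e2]; norm_num
  by_contra hcon
  push Not at hcon
  set σ := ∑ A ∈ F, noise g A with hσ
  obtain ⟨i0, hi0⟩ : ∃ i, 0 < lam f i := by
    by_contra hz
    push Not at hz
    have : ∑ i, lam f i ≤ 0 := Finset.sum_nonpos fun i _ => hz i
    rw [hvar] at this
    norm_num at this
  have h3 : ∑ i, lam f i * ∑ A ∈ univ.filter (fun A : Finset (Fin n) => i ∈ A), noise g A <
      ∑ i, lam f i * σ := by
    refine Finset.sum_lt_sum (fun i _ => mul_le_mul_of_nonneg_left (hcon i).le (lam_nonneg f i))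
      ⟨i0, Finset.mem_univ _, mul_lt_mul_of_pos_left (hcon i0) hi0⟩
  rw [← Finset.sum_mul, hvar, one_mul] at h3
  linarith

end Pool.Agent.H39.Noise
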