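import Pool.Agent.H60.Flow.Cor

/-!
# The inequality `Cov(u ^ 2, T K) ≥ ∑ T ≠ ∅, hat u T ^ 2 * max {hat K {i} : i ∈ T}`, `T` the noise operator with parameter `1/2`
-/

set_option autoImplicit false
set_option linter.unusedSectionVars false

open Finset

namespace Pool.Agent.H39.Noise

open Pool.Agent.H60.Flow

variable {ι : Type*} [Fintype ι] [DecidableEq ι]

/-- The noise operator with parameter `1/2`, in Fourier form. -/
noncomputable def nf (K : Finset ι → ℝ) (A : Finset ι) : ℝ :=
  ∑ S : Finset ι, (1 / 2) ^ S.card * hat K S * ch S A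

/-- The bilinear form of `nf`. -/
noncomputable def bf (f K : Finset ι → ℝ) : ℝ := ∑ S : Finset ι, (1 / 2) ^ S.card * (hat f S * hat K S)

theorem av_sum {α : Type*} (s : Finset α) (F : α → Finset ι → ℝ) :
    av (fun A => ∑ x ∈ s, F x A) = ∑ x ∈ s, av (F x) := by
  unfold av; rw [Finset.sum_comm, Finset.sum_div]

theorem av_mul_nf (f K : Finset ι → ℝ) : av (fun A => f A * nf K A) = bf f K := by
  have h : ∀ A, f A * nf K A = ∑ S : Finset ι, ((1 / 2) ^ S.card * hat K S) * (f A * ch S A) := by
    intro A
    unfold nf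
    rw [Finset.mul_sum]
    exact Finset.sum_congr rfl fun S _ => by ring
  rw [av_congr h, av_sum]
  unfold bf
  refine Finset.sum_congr rfl fun S _ => ?_
  rw [av_mul_left]
  unfold hat
  ring

theorem bf_comm (f K : Finset ι → ℝ) : bf f K = bf K f := by
  unfold bf
  exact Finset.sum_congr rfl fun S _ => by ring

theorem bf_lin (a b : ℝ) (f g K : Finset ι → ℝ) :
    bf (fun A => a * f A + b * g A) K = a * bf f K + b * bf g K := by
  rw [← av_mul_nf, ← av_mul_nf, ← av_mul_nf, ← av_mul_left, ← av_mul_left, ← av_add]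
  exact av_congr fun A => by ring

theorem bf_lin_right (a b : ℝ) (f K L : Finset ι → ℝ) :
    bf f (fun A => a * K A + b * L A) = a * bf f K + b * bf f L := by
  rw [bf_comm, bf_lin, bf_comm K, bf_comm L]

theorem hat_zero_of {g : Finset ι → ℝ} {j : ι} (hg : ∀ A, g (insert j A) = g (A.erase j)) {T : Finset ι}
    (hT : j ∈ T) : hat g T = 0 := by
  rw [hat_of_mem hT]
  unfold hat
  have : ∀ A, (g (insert j A) - g (A.erase j)) / 2 * ch (T.erase j) A = 0 := by
    intro A; rw [hg]; ring
  rw [av_congr this, av_const]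

theorem hat_ch (S T : Finset ι) : hat (fun A => ch S A) T = if S = T then 1 else 0 := by
  split_ifs with h
  · subst h
    unfold hat
    rw [av_congr (fun A => ch_sq S A), av_const]
  · have key : ∀ S T : Finset ι, ∀ j, j ∈ T → j ∉ S → hat (fun A => ch S A) T = 0 := by
      intro S T j hjT hjS
      refine hat_zero_of (j := j) (fun A => ?_) hjT
      rw [(ch_insert_erase hjS A).1, (ch_insert_erase hjS A).2]
    have : ∃ j, ¬ (j ∈ S ↔ j ∈ T) := by
      by_contra hc
      push Not at hc
      exact h (Finset.ext hc)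
    obtain ⟨j, hj⟩ := this
    by_cases hjT : j ∈ T
    · have hjS : j ∉ S := fun h => hj ⟨fun _ => hjT, fun _ => h⟩
      exact key S T j hjT hjS
    · have hjS : j ∈ S := by
        by_contra hc
        exact hj ⟨fun h => absurd h hc, fun h => absurd h hjT⟩
      have h1 := key T S j hjS hjT
      unfold hat at h1 ⊢
      rw [← h1]
      exact av_congr fun A => by ring

theorem hat_nf (K : Finset ι → ℝ) (T : Finset ι) : hat (nf K) T = (1 / 2) ^ T.card * hat K T := by
  have h1 : hat (nf K) T = bf (fun A => ch T A) K := by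
    rw [← av_mul_nf]
    unfold hat
    exact av_congr fun A => by ring
  rw [h1]
  unfold bf
  simp only [hat_ch]
  simp

theorem av_nf (K : Finset ι → ℝ) : av (nf K) = av K := by
  rw [← hat_empty, hat_nf, hat_empty]; simp

theorem kap_nf (K : Finset ι → ℝ) (i : ι) : kap (nf K) i = kap K i / 2 := by
  unfold kap
  rw [hat_nf]
  simp only [Finset.card_singleton, pow_one]
  ring

theorem cov_nf (f K : Finset ι → ℝ) : cov f (nf K) = bf f K - av f * av K := by
  unfold cov
  rw [av_mul_nf, av_nf]

theorem bf_const_left (c : ℝ) (K : Finset ι → ℝ) : bf (fun _ => c) K = c * av K := by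
  rw [← av_mul_nf, av_mul_left, av_nf]

theorem nf_compl (K : Finset ι → ℝ) (A : Finset ι) : nf (fun B => - K Bᶜ) A = - nf K Aᶜ := by
  unfold nf
  rw [← Finset.sum_neg_distrib]
  refine Finset.sum_congr rfl fun S _ => ?_
  rw [hat_neg, hat_compl, ch_compl]
  ring

/-- Peeling one coordinate. -/
theorem bf_peel (j : ι) (w K p Kb dw dK : Finset ι → ℝ)
    (hp : p = fun A => (w (insert j A) + w (A.erase j)) / 2)
    (hKb : Kb = fun A => (K (insert j A) + K (A.erase j)) / 2)
    (hdw : dw = fun A => (w (insert j A) - w (A.erase j)) / 2)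
    (hdK : dK = fun A => (K (insert j A) - K (A.erase j)) / 2) :
    bf w K = bf p Kb + bf dw dK / 2 := by
  have hie : ∀ A : Finset ι, insert j (insert j A) = insert j (A.erase j) := by
    intro A; ext x; simp only [Finset.mem_insert, Finset.mem_erase]; tauto
  have hei : ∀ A : Finset ι, (insert j A).erase j = (A.erase j).erase j := by
    intro A; ext x; simp only [Finset.mem_insert, Finset.mem_erase]; tauto
  have zp : ∀ T : Finset ι, j ∈ T → hat p T = 0 := by
    intro T hT
    refine hat_zero_of (j := j) (fun A => ?_) hT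
    rw [hp]
    simp only [hie, hei]
  have zd : ∀ T : Finset ι, j ∈ T → hat dw T = 0 := by
    intro T hT
    refine hat_zero_of (j := j) (fun A => ?_) hT
    rw [hdw]
    simp only [hie, hei]
  have h1 := sum_pm j (fun S : Finset ι => (1 / 2 : ℝ) ^ S.card * (hat w S * hat K S))
  have h2 := sum_pm j (fun S : Finset ι => (1 / 2 : ℝ) ^ S.card * (hat p S * hat Kb S))
  have h3 := sum_pm j (fun S : Finset ι => (1 / 2 : ℝ) ^ S.card * (hat dw S * hat dK S))
  have e2 : ∀ S : Finset ι, hat p (insert j S) = 0 := fun S => zp _ (Finset.mem_insert_self j S)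
  have e3 : ∀ S : Finset ι, hat dw (insert j S) = 0 := fun S => zd _ (Finset.mem_insert_self j S)
  simp only [e2, e3, zero_mul, mul_zero, zero_add] at h2 h3
  have e1 : ∀ S : Finset ι, (1 / 2 : ℝ) ^ (insert j S).card * (hat w (insert j S) * hat K (insert j S)) +
      (1 / 2 : ℝ) ^ (S.erase j).card * (hat w (S.erase j) * hat K (S.erase j)) =
      ((1 / 2 : ℝ) ^ (S.erase j).card * (hat dw (S.erase j) * hat dK (S.erase j))) * (1 / 2) +
      (1 / 2 : ℝ) ^ (S.erase j).card * (hat p (S.erase j) * hat Kb (S.erase j)) := by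
    intro S
    have hj1 : j ∉ S.erase j := Finset.notMem_erase j S
    have hj2 : j ∈ insert j S := Finset.mem_insert_self j S
    have hins : insert j S = insert j (S.erase j) := by
      ext x; simp only [Finset.mem_insert, Finset.mem_erase]; tauto
    have her : (insert j S).erase j = S.erase j := by
      ext x; simp only [Finset.mem_insert, Finset.mem_erase]; tauto
    have hc : (insert j S).card = (S.erase j).card + 1 := by
      rw [hins, Finset.card_insert_of_notMem hj1]
    rw [hat_of_mem hj2 w, hat_of_mem hj2 K, hat_of_notMem hj1 w, hat_of_notMem hj1 K, her, hc, pow_succ,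
      hp, hKb, hdw, hdK]
    ring
  simp only [e1, Finset.sum_add_distrib] at h1
  rw [← Finset.sum_mul] at h1
  unfold bf
  linarith

/-- The reflected form of the inequality. -/
theorem reflected_nf {S : Finset ι}
    (ih : ∀ u K : Finset ι → ℝ, (∀ A, 0 ≤ u A) → Monotone u → Monotone K → Dep S u → Dep S K →
      En (kap K) u ≤ cov (fun A => u A ^ 2) (nf K))
    {p K : Finset ι → ℝ} (hp1 : ∀ A, p A ≤ 1) (hp : Monotone p) (hK : Monotone K) (hpS : Dep S p)
    (hKS : Dep S K) : En (kap K) p ≤ cov (fun A => 2 * p A - p A ^ 2) (nf K) := by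
  have h := ih (fun A => 1 - p Aᶜ) (fun A => - K Aᶜ) (fun A => by linarith [hp1 Aᶜ])
    (fun A B hAB => by
      have := hp (Finset.compl_subset_compl.2 hAB)
      show 1 - p Aᶜ ≤ 1 - p Bᶜ
      linarith)
    (fun A B hAB => by
      have := hK (Finset.compl_subset_compl.2 hAB)
      show - K Aᶜ ≤ - K Bᶜ
      linarith)
    (by
      intro j hj A
      show 1 - p (insert j A)ᶜ = 1 - p Aᶜ
      have h : p (insert j A)ᶜ = p Aᶜ := dep_compl hpS j hj A
      rw [h])
    (by
      intro j hj A
      show - K (insert j A)ᶜ = - K Aᶜ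
      have h : K (insert j A)ᶜ = K Aᶜ := dep_compl hKS j hj A
      rw [h])
  have h1 : kap (fun A => - K Aᶜ) = kap K := by
    funext i
    unfold kap
    rw [hat_neg, hat_compl]; simp
  have h2 : En (kap K) (fun A => 1 - p Aᶜ) = En (kap K) p := by
    refine En_congr_sq fun T hT => ?_
    rw [hat_sub, hat_const 1 hT, hat_compl]
    rw [zero_sub, neg_sq, mul_pow, neg_one_pow_sq, one_mul]
  have h3 : cov (fun A => (1 - p Aᶜ) ^ 2) (nf (fun A => - K Aᶜ)) = cov (fun A => 2 * p A - p A ^ 2) (nf K) := by
    have hn : nf (fun A => - K Aᶜ) = fun A => - nf K Aᶜ := by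
      funext A; exact nf_compl K A
    rw [hn]
    unfold cov
    have e1 : av (fun A => (1 - p Aᶜ) ^ 2 * - nf K Aᶜ) =
        av (fun A => (2 * p A - p A ^ 2) * nf K A) - av (nf K) := by
      rw [← av_compl, ← av_sub]
      refine av_congr fun A => ?_
      rw [compl_compl]; ring
    have e2 : av (fun A => (1 - p Aᶜ) ^ 2) = 1 - av (fun A => 2 * p A - p A ^ 2) := by
      rw [← av_compl]
      have : av (fun A : Finset ι => (1 : ℝ) - (2 * p A - p A ^ 2)) = 1 - av (fun A => 2 * p A - p A ^ 2) := by
        rw [av_sub, av_const]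
      rw [← this]
      refine av_congr fun A => ?_
      rw [compl_compl]; ring
    have e3 : av (fun A => - nf K Aᶜ) = - av (nf K) := by
      rw [av_neg, av_compl]
    rw [e1, e2, e3]; ring
  rw [h1, h2, h3] at h
  exact h

/-- The step for indicators. -/
theorem step_nf {S : Finset ι} {j : ι}
    (ih : ∀ u K : Finset ι → ℝ, (∀ A, 0 ≤ u A) → Monotone u → Monotone K → Dep (S.erase j) u →
      Dep (S.erase j) K → En (kap K) u ≤ cov (fun A => u A ^ 2) (nf K))
    {w K : Finset ι → ℝ} (hw : ∀ A, w A = 0 ∨ w A = 1) (hwm : Monotone w) (hK : Monotone K)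
    (hwS : Dep S w) (hKS : Dep S K) (hmax : ∀ i, kap K i ≤ kap K j) : En (kap K) w ≤ cov w (nf K) := by
  set p : Finset ι → ℝ := fun A => (w (insert j A) + w (A.erase j)) / 2 with hp
  set Kp : Finset ι → ℝ := fun A => K (insert j A) with hKp
  set Km : Finset ι → ℝ := fun A => K (A.erase j) with hKm
  have hle : ∀ A : Finset ι, A.erase j ≤ insert j A := fun A =>
    (Finset.erase_subset j A).trans (Finset.subset_insert j A)
  have hw01 : ∀ A, 0 ≤ w A ∧ w A ≤ 1 := by
    intro A; rcases hw A with h | h <;> rw [h] <;> norm_num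
  have hp0 : ∀ A, 0 ≤ p A := fun A => by
    have h1 := (hw01 (insert j A)).1
    have h2 := (hw01 (A.erase j)).1
    show 0 ≤ (w (insert j A) + w (A.erase j)) / 2
    linarith
  have hp1 : ∀ A, p A ≤ 1 := fun A => by
    have h1 := (hw01 (insert j A)).2
    have h2 := (hw01 (A.erase j)).2
    show (w (insert j A) + w (A.erase j)) / 2 ≤ 1
    linarith
  have hpm : Monotone p := fun A B hAB => by
    have h1 := monotone_insert hwm j hAB
    have h2 := monotone_erase hwm j hAB
    have h1 : w (insert j A) ≤ w (insert j B) := h1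
    have h2 : w (A.erase j) ≤ w (B.erase j) := h2
    show (w (insert j A) + w (A.erase j)) / 2 ≤ (w (insert j B) + w (B.erase j)) / 2
    linarith
  have hpS : Dep (S.erase j) p := fun i hi A => by
    have h1 : w (insert j (insert i A)) = w (insert j A) := dep_insert hwS j i hi A
    have h2 : w ((insert i A).erase j) = w (A.erase j) := dep_erase hwS j i hi A
    show (w (insert j (insert i A)) + w ((insert i A).erase j)) / 2 = (w (insert j A) + w (A.erase j)) / 2
    rw [h1, h2]
  have hKpm : Monotone Kp := monotone_insert hK j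
  have hKmm : Monotone Km := monotone_erase hK j
  have hKpS : Dep (S.erase j) Kp := dep_insert hKS j
  have hKmS : Dep (S.erase j) Km := dep_erase hKS j
  have hA := reflected_nf ih hp1 hpm hKpm hpS hKpS
  have hB := ih p Km hp0 hpm hKmm hpS hKmS
  -- the covariance
  have c1 : bf w K = bf (fun A => 2 * p A - p A ^ 2) Kp / 2 + bf (fun A => p A ^ 2) Km / 2 := by
    have h1 := bf_peel j w K p (fun A => (1 / 2) * Kp A + (1 / 2) * Km A)
      (fun A => 2 * p A + (-2) * p A ^ 2) (fun A => (1 / 2) * Kp A + (-(1 / 2)) * Km A) hp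
      (by
        funext A
        show (1 / 2) * K (insert j A) + (1 / 2) * K (A.erase j) = _
        ring)
      (by
        funext A
        have h3 := hwm (hle A)
        show 2 * ((w (insert j A) + w (A.erase j)) / 2) + (-2) * ((w (insert j A) + w (A.erase j)) / 2) ^ 2 = _
        rcases hw (insert j A) with h1 | h1 <;> rcases hw (A.erase j) with h2 | h2
        · rw [h1, h2]; ring
        · rw [h1, h2] at h3; norm_num at h3
        · rw [h1, h2]; ring
        · rw [h1, h2]; ring)
      (by
        funext A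
        show (1 / 2) * K (insert j A) + (-(1 / 2)) * K (A.erase j) = _
        ring)
    rw [bf_lin_right, bf_lin_right, bf_lin, bf_lin] at h1
    have h2 : bf (fun A => 2 * p A - p A ^ 2) Kp = 2 * bf p Kp + (-1) * bf (fun A => p A ^ 2) Kp := by
      rw [← bf_lin]
      congr 1
      funext A; ring
    rw [h1, h2]
    ring
  have c2 : av w = av p := av_pm j w
  have c3 : av K = av Kp / 2 + av Km / 2 := by
    rw [av_pm j]
    have : ∀ A : Finset ι, (K (insert j A) + K (A.erase j)) / 2 = Kp A * (1 / 2) + Km A * (1 / 2) := by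
      intro A
      show _ = K (insert j A) * (1 / 2) + K (A.erase j) * (1 / 2)
      ring
    rw [av_congr this, av_add, av_mul_right, av_mul_right]; ring
  have c4 : av (fun A => 2 * p A - p A ^ 2) = 2 * av p - av (fun A => p A ^ 2) := by
    rw [av_sub, av_mul_left]
  -- the energy
  have hkj : kap K j = (av Kp - av Km) / 2 := by
    rw [kap_eq]
    have : ∀ A : Finset ι, (K (insert j A) - K (A.erase j)) / 2 = Kp A * (1 / 2) - Km A * (1 / 2) := by
      intro A
      show _ = K (insert j A) * (1 / 2) - K (A.erase j) * (1 / 2)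
      ring
    rw [av_congr this, av_sub, av_mul_right, av_mul_right]; ring
  have hsplit : ∀ g : Finset ι → ℝ, ∑ T, g T =
      ∑ T ∈ univ.filter (fun T => j ∉ T), g T + ∑ T ∈ univ.filter (fun T => j ∈ T), g T := by
    intro g
    rw [add_comm, Finset.sum_filter_add_sum_filter_not]
  have e1 : ∑ T ∈ univ.filter (fun T => j ∈ T), hat w T ^ 2 = av p - av (fun A => p A ^ 2) := by
    have h1 := hsplit (fun T => hat w T ^ 2)
    have h2 := hat_sq_sum_notMem w j p hp (fun _ => 1)
    simp only [one_mul] at h2
    rw [h2, parseval, parseval] at h1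
    have h3 : av (fun A => w A ^ 2) = av w := by
      refine av_congr fun A => ?_
      rcases hw A with h | h <;> rw [h] <;> norm_num
    rw [h3, c2] at h1
    linarith
  have e2 : ∑ T ∈ univ.filter (fun T => j ∈ T), Mx (kap K) T * hat w T ^ 2 ≤
      kap K j * (av p - av (fun A => p A ^ 2)) := by
    rw [← e1, Finset.mul_sum]
    refine Finset.sum_le_sum fun T _ => ?_
    exact mul_le_mul_of_nonneg_right (Mx_le (kap_nonneg hK j) fun i _ => hmax i) (sq_nonneg _)
  have e3 : ∑ T ∈ univ.filter (fun T => j ∉ T), Mx (kap K) T * hat w T ^ 2 ≤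
      (En (kap Kp) p + En (kap Km) p) / 2 := by
    have h1 : ∑ T ∈ univ.filter (fun T => j ∉ T), Mx (kap K) T * hat w T ^ 2 ≤
        ∑ T ∈ univ.filter (fun T => j ∉ T), ((Mx (kap Kp) T + Mx (kap Km) T) / 2) * hat w T ^ 2 := by
      refine Finset.sum_le_sum fun T hT => ?_
      refine mul_le_mul_of_nonneg_right ?_ (sq_nonneg _)
      have hjT : j ∉ T := (Finset.mem_filter.1 hT).2
      have n1 := Mx_nonneg (kap Kp) T
      have n2 := Mx_nonneg (kap Km) T
      refine Mx_le (by linarith) fun i hi => ?_
      have hij : i ≠ j := fun h => hjT (h ▸ hi)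
      rw [kap_avg K hij]
      have m1 := le_Mx (kap Kp) hi
      have m2 := le_Mx (kap Km) hi
      linarith
    refine h1.trans (le_of_eq ?_)
    rw [hat_sq_sum_notMem w j p hp]
    unfold En
    rw [← Finset.sum_add_distrib, Finset.sum_div]
    exact Finset.sum_congr rfl fun T _ => by ring
  have e4 : En (kap K) w ≤ (En (kap Kp) p + En (kap Km) p) / 2 +
      kap K j * (av p - av (fun A => p A ^ 2)) := by
    have := hsplit (fun T => Mx (kap K) T * hat w T ^ 2)
    unfold En at *
    linarith
  rw [cov_nf] at hA hB ⊢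
  rw [c1, c2, c3]
  rw [c4] at hA
  rw [hkj] at e4
  refine e4.trans ?_
  have hf : (av Kp - av Km) / 2 * (av p - av (fun A => p A ^ 2)) =
      (2 * av p - av (fun A => p A ^ 2)) * av Kp / 2 + av (fun A => p A ^ 2) * av Km / 2 -
        av p * (av Kp / 2 + av Km / 2) := by ring
  rw [hf]
  linarith

/-- The main inequality. -/
theorem main_dep_nf (n : ℕ) : ∀ S : Finset ι, S.card = n → ∀ u K : Finset ι → ℝ, (∀ A, 0 ≤ u A) → Monotone u →
    Monotone K → Dep S u → Dep S K → En (kap K) u ≤ cov (fun A => u A ^ 2) (nf K) := by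
  induction n with
  | zero =>
    intro S hS u K hu0 hu hK huS hKS
    rw [Finset.card_eq_zero] at hS
    subst hS
    have hconst : ∀ f : Finset ι → ℝ, Dep ∅ f → ∀ A, f A = f ∅ := by
      intro f hf A
      induction A using Finset.induction_on with
      | empty => rfl
      | insert a s ha ih => rw [hf a (Finset.notMem_empty a), ih]
    have h1 : En (kap K) u = 0 := by
      unfold En
      refine Finset.sum_eq_zero fun T _ => ?_
      rcases T.eq_empty_or_nonempty with rfl | ⟨i, hi⟩
      · rw [Mx_empty]; ring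
      · rw [huS.hat_eq_zero hi (Finset.notMem_empty i)]; ring
    have h2 : cov (fun A => u A ^ 2) (nf K) = 0 := by
      rw [cov_nf]
      have e2 : (fun A => u A ^ 2) = fun _ => u ∅ ^ 2 := by
        funext A; rw [hconst u huS]
      rw [e2, bf_const_left, av_const]; ring
    rw [h1, h2]
  | succ n ih =>
    intro S hS u K hu0 hu hK huS hKS
    refine layers (kap_nonneg hK) (fun w hw hwm hwS => ?_) u hu0 hu huS
    have hne : (S : Finset ι).Nonempty := by rw [← Finset.card_pos]; omega
    obtain ⟨j, hjS, hj⟩ := Finset.exists_max_image S (kap K) hne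
    refine step_nf (j := j) (ih (S.erase j) (by rw [Finset.card_erase_of_mem hjS]; omega)) hw hwm hK hwS hKS ?_
    intro i
    by_cases hi : i ∈ S
    · exact hj i hi
    · have : kap K i = 0 := hKS.hat_eq_zero (Finset.mem_singleton_self i) hi
      rw [this]; exact kap_nonneg hK j

/-- `Cov(u ^ 2, T K) ≥ ∑ T ≠ ∅, hat u T ^ 2 * max {hat K {i} : i ∈ T}`. -/
theorem main_nf (u K : Finset ι → ℝ) (hu0 : ∀ A, 0 ≤ u A) (hu : Monotone u) (hK : Monotone K) :
    En (kap K) u ≤ cov (fun A => u A ^ 2) (nf K) :=
  main_dep_nf _ univ rfl u K hu0 hu hK (fun j hj => absurd (Finset.mem_univ j) hj)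
    (fun j hj => absurd (Finset.mem_univ j) hj)

end Pool.Agent.H39.Noise
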